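import Pool.Agent.Y811.PC.Stm4

set_option autoImplicit false

/-!
# The law in the parameter scale for every satellite parameter (PC-SAT)

The implicit function theorem gives the fixed point `al c` of `G d m c` near `z₀` (its multiplier
at `c₀` is not `1`); the multiplier along it is analytic, its derivative is not zero by
transversality, and the law is `S_CSC`.
-/

namespace Pool.Agent.Y672.PC

open Complex Metric Set Filter Topology Pool.Agent.H712R2 Pool.Agent.H713R2 N62a1eb23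
open Pool.Agent.Y811.PC

theorem t_SAT (h1 : S_CSC) (h2 : S_TRANS2) (h3 : S_IFT) (hA : S_ANA) : S_SAT := by
  intro d m q c₀ z₀ ε₀ hPD hR hmu
  have hG : AnalyticAt ℂ (fun p : ℂ × ℂ => G d m p.1 p.2) (c₀, z₀) := (hA d m c₀ z₀).1
  have hF : AnalyticAt ℂ (fun p : ℂ × ℂ => G d m p.1 p.2 - p.2) (c₀, z₀) :=
    hG.sub analyticAt_snd
  -- the derivative in `z`
  have hGz : AnalyticAt ℂ (fun z : ℂ => G d m c₀ z) z₀ := by
    have h5 : AnalyticAt ℂ (fun z : ℂ => ((c₀, z) : ℂ × ℂ)) z₀ :=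
      analyticAt_const.prod analyticAt_id
    exact AnalyticAt.fun_comp (f := fun z : ℂ => ((c₀, z) : ℂ × ℂ)) (x := z₀) hG h5
  have hdz : HasDerivAt (fun z : ℂ => G d m c₀ z - z) (mu d m c₀ z₀ - 1) z₀ :=
    hGz.differentiableAt.hasDerivAt.sub (hasDerivAt_id z₀)
  have hne : deriv (fun y => (fun p : ℂ × ℂ => G d m p.1 p.2 - p.2) (c₀, y)) z₀ ≠ 0 := by
    change deriv (fun z : ℂ => G d m c₀ z - z) z₀ ≠ 0
    rw [hdz.deriv]
    exact sub_ne_zero.mpr hmu
  have h0 : (fun p : ℂ × ℂ => G d m p.1 p.2 - p.2) (c₀, z₀) = 0 := by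
    change G d m c₀ z₀ - z₀ = 0
    rw [hPD.fix, sub_self]
  obtain ⟨δ, η, al, hδ, -, hal, hal0, hfix, -⟩ := h3 _ c₀ z₀ hF h0 hne
  have halan : AnalyticAt ℂ al c₀ := hal.analyticAt (ball_mem_nhds c₀ hδ)
  have hev : ∀ᶠ c in 𝓝 c₀, G d m c (al c) = al c := by
    filter_upwards [ball_mem_nhds c₀ hδ] with c hc
    exact sub_eq_zero.mp (hfix c hc)
  -- the multiplier along the curve
  have hmuan : AnalyticAt ℂ (fun c => mu d m c (al c)) c₀ := by
    have h5 : AnalyticAt ℂ (fun c : ℂ => ((c, al c) : ℂ × ℂ)) c₀ := analyticAt_id.prod halan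
    exact AnalyticAt.fun_comp (f := fun c : ℂ => ((c, al c) : ℂ × ℂ)) (x := c₀)
      (hA d m c₀ (al c₀)).2 h5
  have hκ := hmuan.differentiableAt.hasDerivAt
  have hκ0 := h2 d m q c₀ z₀ hPD hmu al _ halan.continuousAt hal0 hev hκ
  exact ⟨al, _, halan, hal0, hev, hκ, hκ0,
    fun ψ hψ => h1 d m q c₀ z₀ ε₀ hPD hR hmu al _ halan.continuousAt hal0 hev hκ hκ0 ψ hψ⟩

end Pool.Agent.Y672.PC
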